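import Pool.Agent.helper51.VR.Spec

/-! Row vr:CDV (helper92). -/

set_option autoImplicit false

namespace Pool.Agent.VR

open Pool.Agent.RB NumberField IsDedekindDomain Module
open scoped nonZeroDivisors Real Classical IsMulCommutative

theorem CDV_mul {F H : Type} [Field F] [NumberField F] [Field H] [NumberField H] [Algebra F H]
    (σ τ : H ≃ₐ[F] H) (P : HOS H) :
    act ((σ * τ : H ≃ₐ[F] H) : H ≃+* H) P = act (σ : H ≃+* H) (act (τ : H ≃+* H) P) := by
  rw [← (ORD H).2.2.2.2.2.2.2.1 (τ : H ≃+* H) (σ : H ≃+* H) P]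
  rfl

theorem CDV_one {F H : Type} [Field F] [NumberField F] [Field H] [NumberField H] [Algebra F H]
    (P : HOS H) : act ((1 : H ≃ₐ[F] H) : H ≃+* H) P = P := (ORD H).2.2.2.2.2.2.1 P

theorem CDV_coeff {F H : Type} [Field F] [NumberField F] [Field H] [NumberField H] [Algebra F H]
    [IsAbelianGalois F H] (w : HOS H) (E : Dv H) (ρ : H ≃ₐ[F] H) :
    (cD w E : MonoidAlgebra ℤ (H ≃ₐ[F] H)).coeff ρ = E (act (ρ : H ≃+* H) w) := by
  unfold cD
  rw [MonoidAlgebra.coeff_sum, Finsupp.finsetSum_apply, Finset.sum_eq_single ρ]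
  · rw [MonoidAlgebra.coeff_single, Finsupp.single_eq_same]
  · intro σ _ hσ
    rw [MonoidAlgebra.coeff_single, Finsupp.single_eq_of_ne hσ.symm]
  · intro h
    exact absurd (Finset.mem_univ _) h

theorem CDV (hFCT : FCT_stmt) : CDV_stmt := by
  intro F H _ _ _ _ _ _ _ r D
  obtain ⟨hcc, -, h3, h4, -⟩ := hFCT F H r D
  have hc2 : ∀ P : HOS H, act (D.c : H ≃+* H) (act (D.c : H ≃+* H) P) = P := by
    intro P
    rw [← CDV_mul, hcc, CDV_one]
  have hinj : ∀ (σ : H ≃ₐ[F] H) (P Q : HOS H), act (σ : H ≃+* H) P = act (σ : H ≃+* H) Q → P = Q := by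
    intro σ P Q h
    have h5 := congrArg (act ((σ⁻¹ : H ≃ₐ[F] H) : H ≃+* H)) h
    rwa [← CDV_mul, ← CDV_mul, inv_mul_cancel, CDV_one, CDV_one] at h5
  have heq : ∀ (i j : Fin r) (τ ρ : H ≃ₐ[F] H), act (τ : H ≃+* H) (D.w i) = act (ρ : H ≃+* H) (D.w j) →
      i = j ∧ τ = ρ := by
    intro i j τ ρ h
    have h5 : act ((ρ⁻¹ * τ : H ≃ₐ[F] H) : H ≃+* H) (D.w i) = D.w j := by
      rw [CDV_mul, h, ← CDV_mul, inv_mul_cancel, CDV_one]
    obtain ⟨h6, h7⟩ := h3 i j _ h5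
    exact ⟨h6, (inv_mul_eq_one.1 h7).symm⟩
  refine ⟨?_, ?_, ?_, ?_⟩
  · intro w E x hE
    ext ρ
    rw [CDV_coeff, hE, (vr_orz F H w).2.2.2.2 x ρ]
  · intro w E E'
    ext ρ
    rw [MonoidAlgebra.coeff_add, Finsupp.add_apply, CDV_coeff, CDV_coeff, CDV_coeff]
    rfl
  · intro w E hE
    have h5 : (cD w E : MonoidAlgebra ℤ (H ≃ₐ[F] H)) =
        ∑ τ : H ≃ₐ[F] H, MonoidAlgebra.single (D.c * τ) (E (act ((D.c * τ : H ≃ₐ[F] H) : H ≃+* H) w)) := by
      unfold cD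
      exact (Equiv.sum_comp (Equiv.mulLeft D.c)
        (fun τ : H ≃ₐ[F] H => MonoidAlgebra.single τ (E (act (τ : H ≃+* H) w)))).symm
    have h6 : MonoidAlgebra.single D.c 1 * (cD w E : MonoidAlgebra ℤ (H ≃ₐ[F] H)) =
        ∑ τ : H ≃ₐ[F] H, MonoidAlgebra.single (D.c * τ) (E (act (τ : H ≃+* H) w)) := by
      unfold cD
      rw [Finset.mul_sum]
      refine Finset.sum_congr rfl fun τ _ => ?_
      rw [MonoidAlgebra.single_mul_single, one_mul]
    rw [h6, h5, ← Finset.sum_neg_distrib]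
    refine Finset.sum_congr rfl fun τ _ => ?_
    rw [CDV_mul, hE.2, MonoidAlgebra.single_neg, neg_neg]
  · intro i τ
    have h5 : ∀ (j : Fin r) (ρ σ : H ≃ₐ[F] H), (Finsupp.single (act (σ : H ≃+* H) (D.w i)) (1 : ℤ) : Dv H)
        (act (ρ : H ≃+* H) (D.w j)) = if j = i ∧ ρ = σ then 1 else 0 := by
      intro j ρ σ
      by_cases h : j = i ∧ ρ = σ
      · obtain ⟨rfl, rfl⟩ := h
        rw [if_pos ⟨rfl, rfl⟩]
        exact Finsupp.single_eq_same
      · rw [if_neg h]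
        refine Finsupp.single_eq_of_ne fun h6 => h ?_
        exact heq j i ρ σ h6
    refine ⟨Finsupp.single (act (τ : H ≃+* H) (D.w i)) 1 -
      Finsupp.single (act ((D.c * τ : H ≃ₐ[F] H) : H ≃+* H) (D.w i)) 1, ⟨?_, ?_⟩, ?_⟩
    · intro P hP
      have h6 : ∀ σ : H ≃ₐ[F] H, P ≠ act (σ : H ≃+* H) (D.w i) := by
        rintro σ rfl
        exact hP ⟨i, ((h4 i _).2 ⟨σ, rfl⟩).symm⟩
      rw [Finsupp.sub_apply, Finsupp.single_eq_of_ne (h6 τ), Finsupp.single_eq_of_ne (h6 _), sub_zero]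
    · intro P
      have h7 : ∀ σ : H ≃ₐ[F] H, (Finsupp.single (act (σ : H ≃+* H) (D.w i)) (1 : ℤ) : Dv H)
          (act (D.c : H ≃+* H) P) = (Finsupp.single (act ((D.c * σ : H ≃ₐ[F] H) : H ≃+* H) (D.w i)) (1 : ℤ) : Dv H) P := by
        intro σ
        by_cases h : P = act ((D.c * σ : H ≃ₐ[F] H) : H ≃+* H) (D.w i)
        · rw [h, Finsupp.single_eq_same, CDV_mul, hc2, Finsupp.single_eq_same]
        · rw [Finsupp.single_eq_of_ne h, Finsupp.single_eq_of_ne]
          intro h8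
          apply h
          rw [CDV_mul, ← h8, hc2]
      have h9 : D.c * (D.c * τ) = τ := by rw [← mul_assoc, hcc, one_mul]
      rw [Finsupp.sub_apply, Finsupp.sub_apply, h7, h7, h9, neg_sub]
    · intro j
      ext ρ
      rw [CDV_coeff, Finsupp.sub_apply, h5, h5]
      by_cases hj : j = i
      · rw [if_pos hj, sub_mul, one_mul, MonoidAlgebra.single_mul_single, one_mul, MonoidAlgebra.coeff_sub,
          Finsupp.sub_apply, MonoidAlgebra.coeff_single, MonoidAlgebra.coeff_single]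
        by_cases h1 : ρ = τ <;> by_cases h2 : ρ = D.c * τ
        · have e1 : (Finsupp.single τ (1 : ℤ)) ρ = 1 := by rw [h1]; exact Finsupp.single_eq_same
          have e2 : (Finsupp.single (D.c * τ) (1 : ℤ)) ρ = 1 := by rw [h2]; exact Finsupp.single_eq_same
          rw [if_pos ⟨hj, h1⟩, if_pos ⟨hj, h2⟩, e1, e2]
        · rw [if_pos ⟨hj, h1⟩, if_neg (fun h => h2 h.2), h1, Finsupp.single_eq_same,
            Finsupp.single_eq_of_ne (h1 ▸ h2)]
        · rw [if_neg (fun h => h1 h.2), if_pos ⟨hj, h2⟩, Finsupp.single_eq_of_ne h1, h2,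
            Finsupp.single_eq_same]
        · rw [if_neg (fun h => h1 h.2), if_neg (fun h => h2 h.2), Finsupp.single_eq_of_ne h1,
            Finsupp.single_eq_of_ne h2]
      · rw [if_neg hj, if_neg (fun h => hj h.1), if_neg (fun h => hj h.1), sub_zero]
        rfl

end Pool.Agent.VR
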